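import Pool.Agent.Q100.GC.Chars

set_option autoImplicit false

/-!
# Dade's conjecture, summed over defects and blocks, for Galois-fixed characters: central `O_p(G)`

Let `P` be a central `p`-subgroup of the finite group `G` (in Dade's conjecture `P = O_p(G)`) and `σ`
an automorphism of `ℂ`.  Summed over all defects `d` and all blocks, and restricted to the characters
fixed by `σ`, the alternating sum in Dade's conjecture for `G` is the number of the characters of `P`
fixed by `σ` times the same sum for `G / P`, where the chains start at the trivial group.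

Method: the number of the `σ`-fixed irreducible characters of `H` times `|H|` is the number of the
pairs `(x, y)` in `H` with `y x y⁻¹ = x ^ s`.  By the cancellation of Knörr and Robinson only the pairs
count for which the `p`-part of `x` lies in `P`, both in `G` and in `G / P`; these pairs of `G` are the
`(x₀ z, y₀ w)` with `z, w ∈ P`, `z ^ s = z`, where `(x₀, y₀)` lifts a pair of `G / P` and `x₀` is
`p`-regular.
-/

open scoped Classical
open Pool.Agent.Q100.DP (altSum)
open Pool.Agent.Y63.KR (alternatingSum)

namespace Pool.Agent.Results.MP_3f89b9_al.GaloisFixedCentral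

/-- `χ` is the character of an irreducible complex representation of `H`. -/
def IsIrreducibleCharacter {H : Type} [Group H] (χ : H → ℂ) : Prop :=
  ∃ (V : Type) (_ : AddCommGroup V) (_ : Module ℂ V) (_ : FiniteDimensional ℂ V)
    (ρ : Representation ℂ H V), ρ.IsIrreducible ∧ χ = ρ.character

/-- `k^σ(H)`: the number of the irreducible characters `χ` of `H` with `σ(χ(x)) = χ(x)` for all
`x ∈ H`. -/
noncomputable def k (σ : ℂ ≃+* ℂ) (H : Type) [Group H] : ℕ :=
  Nat.card {χ : H → ℂ // IsIrreducibleCharacter χ ∧ ∀ x, σ (χ x) = χ x}

/-- **Theorem.** Let `G` be a finite group, `p` a prime number, `P` a central `p`-subgroup of `G` and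
`σ` an automorphism of the field `ℂ`.  Then
`∑_d (-1)^|d| k^σ(G_d) = k^σ(P) ∑_e (-1)^|e| k^σ((G / P)_e)`,
where `d` runs through representatives of the `G`-classes of chains `P = D_0 < D_1 < ⋯ < D_n`, `n ≥ 0`,
of `p`-subgroups of `G`, `e` through representatives of the classes of chains
`1 = E_0 < E_1 < ⋯ < E_n`, `n ≥ 0`, of `p`-subgroups of `G / P`, `|d| = n`, `|e| = n`, and `G_d`,
`(G / P)_e` are the stabilisers of the chains. -/
theorem result (p : ℕ) (hp : p.Prime) (G : Type) [Group G] [Finite G] (P : Subgroup G) [P.Normal]
    (hc : ∀ z ∈ P, ∀ g : G, z * g = g * z) (hP : IsPGroup p P) (σ : ℂ ≃+* ℂ) :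
    altSum p P (fun H => (k σ H : ℤ)) =
      (k σ P : ℤ) * alternatingSum p (G ⧸ P) (fun H => (k σ H : ℤ)) := by
  have : Fact p.Prime := ⟨hp⟩
  exact Pool.Agent.Q100.GC.main_chars hc hP σ

end Pool.Agent.Results.MP_3f89b9_al.GaloisFixedCentral
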