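import Pool.Agent.Q99.AS.Dade

/-!
# Dade's alternating sums are multiplicative; one inequality for each block suffices

Let `p` be a prime and `red` a homomorphism from the ring of algebraic integers to a field of
characteristic `p`; its kernel is a maximal ideal that contains `p`.  The `p`-blocks of the finite group
`G` are the sets of irreducible characters with the same central character modulo this ideal.
For a subgroup `H` and `ϑ ∈ Irr(H)`, `bl(ϑ)^G = bl(χ)` means that, modulo the ideal, the central
character of `ϑ` has at the sum of the elements of `H` in a conjugacy class of `G` the same value as the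
central character of `χ` at the sum of this class (`Pool.Agent.Q99.AS.Induces`).

`altSum p O f` (`Pool.Agent.Q99.AS.Chain`) is the alternating sum `∑_σ (-1)^|σ| f(G_σ)` over
representatives of the conjugacy classes of chains `σ = (O = D_0 < D_1 < ⋯ < D_n)` of `p`-subgroups.

Outline of the proof.  `|G|` times the alternating sum is the sum over all chains of
`(-1)^|σ| |G_σ| f(G_σ)`, and a function of subgroups is a sum of indicator functions of the sets
`{H : H ≥ K}`.  So the sums are determined by the signed numbers of the chains of the posets of the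
`p`-subgroups which contain `O` and are normalised by `K`.  For a subgroup `K` of `G × G'` this poset is
connected with the product of the two corresponding posets for the projections of `K` by a Galois
connection, and these numbers are products by P. Hall's theorem.  On the side of the characters the
blocks of `G × G'` are the products of blocks, and defects add up: Dade's sums for the different
defects form a polynomial, and the polynomial of `B ⊗ B'` is the product of the polynomials of `B` and
`B'`.  The rest is the comparison of `G` and its powers.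
-/

set_option autoImplicit false

namespace Pool.Agent.Results.MP_3f89b9_al.OneSidedDade

open Pool.Agent.Q99.AS Pool.Agent.Helper884.IC

variable {F : Type} [Field F]

/-- `ϑ` has `p`-defect `d`: the `p`-part of `ϑ(1)` times `p ^ d` is the `p`-part of `|H|`. -/
def HasDefect (p d : ℕ) {H : Type} [Group H] (ϑ : H → ℂ) : Prop :=
  ∃ n : ℕ, ϑ 1 = n ∧ n.factorization p + d = (Nat.card H).factorization p

/-- `k^d(B_σ)` for `G_σ = H` and the block `B` of `χ`: the number of the `ϑ ∈ Irr(H)` of `p`-defect `d`
with `bl(ϑ)^G = B`. -/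
noncomputable def k (p : ℕ) (red : integralClosure ℤ ℂ →+* F) {G : Type} [Group G] (χ : G → ℂ)
    (d : ℕ) (H : Subgroup G) : ℤ :=
  Nat.card {ϑ : H → ℂ // IsIrrChar ϑ ∧ Induces red χ ϑ ∧ HasDefect p d ϑ}

/-- Dade's alternating sum `∑_σ (-1)^|σ| k^d(B_σ)` for the block `B` of `χ`, over the chains of
`p`-subgroups which start at `O`. -/
noncomputable def sum (p : ℕ) (red : integralClosure ℤ ℂ →+* F) {G : Type} [Group G]
    (O : Subgroup G) (χ : G → ℂ) (d : ℕ) : ℤ := altSum p O (k p red χ d)

/-- The hypotheses of the conjecture: `O = O_p(G)` is central, and the block of `χ ∈ Irr(G)` has defect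
groups larger than `O`, as shown by `χ` itself: `χ(1)_p |O| < |G|_p`.  (Each block whose defect groups
are larger than `O_p(G)` contains such a character.) -/
def Datum (p : ℕ) {G : Type} [Group G] (O : Subgroup G) (χ : G → ℂ) : Prop :=
  IsCore p O ∧ O ≤ Subgroup.center G ∧ IsIrrChar χ ∧ Big p O χ

/-- `Q` holds for the orders `|G|` and the sequences `d ↦ ∑_σ (-1)^|σ| k^d(B_σ)` of all blocks as in the
conjecture of the groups in the class `X`. -/
def All (p : ℕ) (red : integralClosure ℤ ℂ →+* F) (X : ∀ (G : Type) [Group G] [Finite G], Prop)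
    (Q : ℕ → (ℕ → ℤ) → Prop) : Prop :=
  ∀ (G : Type) [Group G] [Finite G] (O : Subgroup G) (χ : G → ℂ), X G → Datum p O χ →
    Q (Nat.card G) (sum p red O χ)

theorem sum_eq (p : ℕ) (red : integralClosure ℤ ℂ →+* F) {G : Type} [Group G]
    (O : Subgroup G) (χ : G → ℂ) : sum p red O χ = dsum red p O χ fun _ _ => True := by
  funext d
  unfold sum dsum
  congr 1
  funext H
  unfold k num
  congr 1
  exact Nat.card_congr (Equiv.subtypeEquivRight fun ϑ => by simp [HasDefect, Dft])

theorem sum_prod {p : ℕ} [Fact p.Prime] (red : integralClosure ℤ ℂ →+* F) {G G' : Type} [Group G]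
    [Group G'] [Finite G] [Finite G'] {O : Subgroup G} {O' : Subgroup G'} {χ : G → ℂ} {χ' : G' → ℂ}
    (hO : IsPGroup p O) (hO' : IsPGroup p O') (n : O.Normal) (n' : O'.Normal) (hχ : IsIrrChar χ)
    (hχ' : IsIrrChar χ') (d : ℕ) :
    sum p red (O.prod O') (ten χ χ') d = ∑ i ∈ Finset.HasAntidiagonal.antidiagonal d,
      sum p red O χ i.1 * sum p red O' χ' i.2 := by
  rw [sum_eq, sum_eq, sum_eq, dsum_prod red hO hO' n n' hχ hχ' (fun _ _ => True) (fun _ _ => True)
    (fun _ _ => True) (fun _ _ _ => Iff.rfl) (fun _ _ _ => Iff.rfl) (fun _ _ _ => Iff.rfl)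
    (fun _ _ _ _ _ _ => by simp) d]
  rfl

theorem Datum.sq {p : ℕ} [Fact p.Prime] {G : Type} [Group G] [Finite G] {O : Subgroup G}
    {χ : G → ℂ} (h : Datum p O χ) : Datum p (O.prod O) (ten χ χ) := by
  obtain ⟨h1, h2, h3, h4⟩ := h
  have := Fintype.ofFinite G
  exact ⟨h1.prod h1, center_prod h2 h2, ten_irr h3 h3, h4.prod h3 h3 h4⟩

/-- Let `p` be a prime and `red` the reduction of the algebraic integers modulo a maximal ideal that
contains `p`.
(1) For finite groups `G`, `G'` with normal `p`-subgroups `O`, `O'` the alternating sums of the block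
`B ⊗ B'` of `G × G'` over the chains starting at `O × O'` are the convolution of those of `B` and `B'`.
Let `X` be a class of finite groups closed under direct squares, for instance the class of all finite
groups.
(2) The conjecture (all sums are `0`) holds for the groups in `X` if and only if in the sequence of the
sums of each block, in the order of increasing defect, the first nonzero member (if any) is negative.
(3) For a transcendental real number `t` the conjecture holds for the groups in `X` if and only if
`∑_d t^d ∑_σ (-1)^|σ| k^d(B_σ) ≤ 0` for each block `B`.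
(4) For each block at most one of the sums is not `0`, and this one is `1` or `-1`, if and only if for
each `ε > 0` there is `C` such that all the sums are `≤ C |G|^ε`. -/
theorem result (p : ℕ) [Fact p.Prime] (F : Type) [Field F] [CharP F p]
    (red : integralClosure ℤ ℂ →+* F) :
    (∀ (G G' : Type) [Group G] [Group G'] [Finite G] [Finite G'] (O : Subgroup G)
      (O' : Subgroup G') (χ : G → ℂ) (χ' : G' → ℂ), IsPGroup p O → IsPGroup p O' → O.Normal →
      O'.Normal → IsIrrChar χ → IsIrrChar χ' → ∀ d : ℕ,
        sum p red (O.prod O') (ten χ χ') d = ∑ i ∈ Finset.HasAntidiagonal.antidiagonal d,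
          sum p red O χ i.1 * sum p red O' χ' i.2) ∧
    ∀ X : ∀ (G : Type) [Group G] [Finite G], Prop,
      (∀ (G : Type) [Group G] [Finite G], X G → X (G × G)) →
        (All p red X (fun _ s => ∀ d, s d = 0) ↔
          All p red X (fun _ s => ∀ d, (∀ e, e < d → s e = 0) → s d ≤ 0)) ∧
        (∀ t : ℝ, Transcendental ℤ t → (All p red X (fun _ s => ∀ d, s d = 0) ↔
          All p red X (fun _ s => ∑ᶠ d : ℕ, (s d : ℝ) * t ^ d ≤ 0))) ∧
        (All p red X (fun _ s => ∀ N, ∑ d ∈ Finset.range N, s d ^ 2 ≤ 1) ↔
          ∀ ε : ℝ, 0 < ε → ∃ C : ℝ, All p red X (fun n s => ∀ d, (s d : ℝ) ≤ C * (n : ℝ) ^ ε)) := by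
  refine ⟨fun G G' _ _ _ _ O O' χ χ' h1 h2 h3 h4 h5 h6 d => sum_prod red h1 h2 h3 h4 h5 h6 d,
    fun X hX => ?_⟩
  let P : ℕ → (ℕ → ℤ) → Prop := fun n s => ∃ (G : Type) (_ : Group G) (_ : Finite G)
      (O : Subgroup G) (χ : G → ℂ), X G ∧ Datum p O χ ∧ n = Nat.card G ∧ s = sum p red O χ
  have hP : ∀ Q : ℕ → (ℕ → ℤ) → Prop, All p red X Q ↔ ∀ n s, P n s → Q n s := by
    intro Q
    constructor
    · rintro h n s ⟨G, _, _, O, χ, hG, hd, rfl, rfl⟩
      exact h G O χ hG hd
    · intro h G _ _ O χ hG hd
      exact h _ _ ⟨G, inferInstance, inferInstance, O, χ, hG, hd, rfl, rfl⟩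
  have hpos : ∀ n s, P n s → 1 ≤ n := by
    rintro n s ⟨G, _, _, O, χ, -, -, rfl, -⟩
    exact Nat.card_pos
  have hsupp : ∀ n s, P n s → ∀ d, Nat.log 2 n < d → s d = 0 := by
    rintro n s ⟨G, _, _, O, χ, -, -, rfl, rfl⟩ d hd
    rw [sum_eq]
    exact dsum_supp red O χ _ hd (Fact.out : p.Prime)
  have hsq : ∀ n s, P n s → P (n * n) (conv s s) := by
    rintro n s ⟨G, _, _, O, χ, hG, hd, rfl, rfl⟩
    refine ⟨G × G, inferInstance, inferInstance, O.prod O, ten χ χ, hX G hG, hd.sq,
      (Nat.card_prod G G).symm, ?_⟩
    obtain ⟨a, b, c, d⟩ := hd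
    funext e
    exact (sum_prod red a.isPGroup a.isPGroup a.normal a.normal c c e).symm
  have h1 := dichotomy hpos hsupp hsq
  refine ⟨?_, fun t ht => ?_, ?_⟩
  · rw [hP, hP]
    exact h1.1
  · rw [hP, hP]
    exact real_ineq hsupp hsq t ht
  · rw [hP]
    simp only [hP]
    exact h1.2

end Pool.Agent.Results.MP_3f89b9_al.OneSidedDade
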