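import Pool.Agent.Q90.WR.Bcl

/-!
# Dade's ordinary conjecture for odd primes, block by block and defect by defect: parity decides

Let `p` be an odd prime and `O` a valuation ring of `ℂ` whose maximal ideal contains `p`; blocks, defect
groups and block induction are defined by central characters modulo the maximal ideal of `O`
(`Pool.Agent.H254R3.IN`). For a block `B` of a finite group `G` let `S_d(B)` be Dade's alternating sum
of the numbers `k^d(B_σ)` over the classes of chains of nontrivial `p`-subgroups and `T_d(B)` the sum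
without signs.

Proof. Let `B ≀ C₂` be the block of `G ≀ C₂` above `B ⊗ B` (it is unique, since `p` is odd and `B` has
positive defect). By the identity `Pool.Agent.Q90.WR.functional` the sum of an arbitrary function of the
stabilisers over the chains of `G ≀ C₂` is a sum over pairs of chains of `G` plus a sum over chains of
`G` of differences of values at wreath products `G_σ ≀ C₂` and at direct products `G_σ × G_σ`. The
characters of these groups whose block induces to `B ≀ C₂` are the products, respectively the characters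
above products, of the characters of `G_σ`, `G_τ` whose blocks induce to `B`, and defects are added.
This gives `2 S_d(B ≀ C₂) = ∑_{i+j=d} S_i(B) S_j(B) + 3 S_{d/2}(B)` (the last term for even `d`). If
`2^(a+1)` divides all `S_d(B)` and all `S_d(B ≀ C₂)`, then `2^(a+2)` divides all `S_d(B)`.
-/

set_option autoImplicit false

noncomputable section

namespace Pool.Agent.Results.MP_3f89b9_al.ParityDecidesBlocks

open Pool.Agent.Y63.KR (alternatingSum chainSetoid chainStabilizer)
open Pool.Agent.Q90.WR (Wr WrN WrSN IndS AdmB blkDef blkDefT)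
open Pool.Agent.Q259.BW (WrS)
open Pool.Agent.H254R3.IN (IsBlock IsDefectGroup)

/-- `k^d(B_σ)` for `G_σ = H`: the number of the irreducible characters `θ` of the subgroup `H` of
`p`-defect `d` with `bl(θ)^G = B`. -/
def kB (p : ℕ) (O : ValuationSubring ℂ) (d : ℕ) {G : Type} [Group G] (B : Set (G → ℂ))
    (H : Subgroup G) : ℕ :=
  Nat.card {θ : H → ℂ // θ ∈ IndS O B (Subtype.val : H → G) ∧
    ∃ n : ℕ, θ 1 = (n : ℂ) ∧ n.factorization p + d = (Nat.card H).factorization p}

/-- Dade's alternating sum `∑_σ (-1)^|σ| k^d(B_σ)` over representatives `σ` of the `G`-classes of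
chains of nontrivial `p`-subgroups of `G`, the empty chain included. -/
def S (p : ℕ) (O : ValuationSubring ℂ) (d : ℕ) {G : Type} [Group G] (B : Set (G → ℂ)) : ℤ :=
  alternatingSum p G (fun H => (kB p O d B H : ℤ))

/-- The same sum without signs. -/
def T (p : ℕ) (O : ValuationSubring ℂ) (d : ℕ) {G : Type} [Group G] (B : Set (G → ℂ)) : ℕ :=
  ∑ᶠ c : Quotient (chainSetoid p G), kB p O d B (chainStabilizer c.out.1)

/-- **Dade's ordinary conjecture for odd primes: parity decides.** Let `p` be an odd prime.
(1) `S_d(B) = 0` for all `d`, all finite groups `G` with `O_p(G) = 1` and all blocks `B` of `G` with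
nontrivial defect groups if and only if `T_d(B)` is even for all these `d`, `G`, `B`.
(2) The same for every class `C` of such pairs `(G, B)` closed under `(G, B) ↦ (G ≀ C₂, B ≀ C₂)`.
(3) For one block `B` with a nontrivial defect group `D` of a finite group `G`: `B ≀ C₂` is a block of
`G ≀ C₂` with `2 S_d(B ≀ C₂) = ∑_{i+j=d} S_i(B) S_j(B) + 3 S_{d/2}(B)` (the last term only for even
`d`), and `2^a` divides `S_d(B)` for all `d` if and only if the numbers `T_d` of the first `a` iterated
wreath products `WrSN j B`, `j < a`, are even for all `d`; so `S_d(B) = 0` for all `d` if and only if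
they are even for all `d` and `j`. -/
theorem result (p : ℕ) [Fact p.Prime] (hp2 : p ≠ 2) (O : ValuationSubring ℂ)
    (hpO : (p : ℂ) ∈ O.nonunits) :
    ((∀ (G : Type) [Group G] (B : Set (G → ℂ)), AdmB p O G B → ∀ d, S p O d B = 0) ↔
      ∀ (G : Type) [Group G] (B : Set (G → ℂ)), AdmB p O G B → ∀ d, Even (T p O d B)) ∧
    (∀ C : (G : Type) → Group G → Set (G → ℂ) → Prop,
      (∀ (G : Type) [i : Group G] (B : Set (G → ℂ)), C G i B → AdmB p O G B) →
      (∀ (G : Type) [i : Group G] (B : Set (G → ℂ)), C G i B → C (Wr G) inferInstance (WrS B)) →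
      ((∀ (G : Type) [i : Group G] (B : Set (G → ℂ)), C G i B → ∀ d, S p O d B = 0) ↔
        ∀ (G : Type) [i : Group G] (B : Set (G → ℂ)), C G i B → ∀ d, Even (T p O d B))) ∧
    ∀ (G : Type) [Group G] [Finite G] (B : Set (G → ℂ)) (D : Subgroup G), IsBlock O B →
      IsDefectGroup p O B D → D ≠ ⊥ →
      (IsBlock O (WrS B) ∧ ∀ d, 2 * S p O d (WrS B) =
        ∑ t ∈ Finset.HasAntidiagonal.antidiagonal d, S p O t.1 B * S p O t.2 B +
          3 * (if 2 ∣ d then S p O (d / 2) B else 0)) ∧
      (∀ a : ℕ, (∀ d, (2 : ℤ) ^ a ∣ S p O d B) ↔ ∀ j < a, ∀ d, Even (T p O d (WrSN j B))) ∧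
      ((∀ d, S p O d B = 0) ↔ ∀ j d : ℕ, Even (T p O d (WrSN j B))) := by
  have key : ∀ C : (G : Type) → Group G → Set (G → ℂ) → Prop,
      (∀ (G : Type) [i : Group G] (B : Set (G → ℂ)), C G i B → AdmB p O G B) →
      (∀ (G : Type) [i : Group G] (B : Set (G → ℂ)), C G i B → C (Wr G) inferInstance (WrS B)) →
      ((∀ (G : Type) [i : Group G] (B : Set (G → ℂ)), C G i B → ∀ d, S p O d B = 0) ↔
        ∀ (G : Type) [i : Group G] (B : Set (G → ℂ)), C G i B → ∀ d, Even (T p O d B)) := by
    intro C h1 h2
    have hN : ∀ (j : ℕ) (G : Type) [i : Group G] (B : Set (G → ℂ)), C G i B →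
        C (WrN j G) inferInstance (WrSN j B) := by
      intro j
      induction j with
      | zero => exact fun G _ B h => h
      | succ j ih => exact fun G _ B h => ih (Wr G) (WrS B) (h2 G B h)
    constructor
    · intro h G _ B hB d
      have := (h1 G B hB).fin
      exact (Pool.Agent.Q90.WR.blkDef_parity d B).mpr (by
        have h3 : blkDef p O d B = 0 := h G B hB d
        rw [h3]
        exact dvd_zero _)
    · intro h G _ B hB
      have := (h1 G B hB).fin
      exact (Pool.Agent.Q90.WR.bd_one hp2 hpO G B ((h1 G B hB).good hpO)).mpr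
        fun j => h (WrN j G) (WrSN j B) (hN j G B hB)
  refine ⟨key (fun G i B => AdmB p O G B) (fun G _ B h => h) (fun G _ B h => h.wr hp2 hpO), key, ?_⟩
  intro G _ _ B D hB hD hne
  have := Fintype.ofFinite G
  have hg : Pool.Agent.Q90.WR.GoodB O B :=
    ⟨hB, Pool.Agent.Q259.BW.nonunits_of_defect hpO hB hD hne⟩
  exact ⟨⟨(hg.wr hp2 hpO).block,
      fun d => Pool.Agent.Q90.WR.blkDef_wr hp2 hpO hg.block hg.pos d⟩,
    fun a => Pool.Agent.Q90.WR.bd_iff hp2 hpO a G B hg, Pool.Agent.Q90.WR.bd_one hp2 hpO G B hg⟩

end Pool.Agent.Results.MP_3f89b9_al.ParityDecidesBlocks
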