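import Pool.Agent.Q149.DB.Zed

/-!
# Dade's conjecture for odd primes: the parities of the sums of the real blocks decide

Let `p` be odd, let `G` be a finite group and `B` a block of `G`. `D_d(B)` is Dade's alternating sum
`∑_σ (-1)^|σ| k^d(B_σ)` over the chains of nontrivial `p`-subgroups, and `R_d(B)` is the sum (without
signs) of the numbers of the real-valued characters counted by `k^d(B_σ)`. If `R_d(B)` is even for all
`d` and all real blocks `B` of positive defect of all groups without nontrivial normal `p`-subgroups,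
then `D_d(B) = 0` for all `d` and all blocks `B` of positive defect of these groups, real or not.

Proof. For `z` in the centre of `F[G]` let `D_d(z)` be the alternating sum of the numbers of the
characters of defect `d` of the stabilisers `G_σ` whose blocks do not vanish at `z`. Since the blocks of
chain stabilisers induce to `G` (Brauer induction along iterated normalisers of `p`-subgroups),
`D_d(z)` is the sum of `D_d(B)` over the blocks with `B(z) ≠ 0`. For the element `z ⊗ z` of the centre
of `F[G ≀ C₂]` the formula for alternating sums of arbitrary functions of the stabilisers gives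
`2 D_d(z ⊗ z) = ∑_{i+j=d} D_i(z) D_j(z) + 3 D_{d/2}(z)`. If `z` is invariant under `g ↦ g⁻¹`, then
`D_d(z)` is congruent modulo 2 to the number of the real characters, which lie in real blocks. So if
these numbers are even for all iterated wreath products, then `D_d(z)` is divisible by all powers of 2.
Finally for each block `B` there is such a `z` with `D_d(z) = D_d(B)` or `D_d(z) = 2 D_d(B)`.
-/

set_option autoImplicit false

namespace Pool.Agent.Results.MP_3f89b9_al.RealBlocksDecide

open Pool.Agent.Y63.NV (IsBlock IsClassFun centralValue)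
open Pool.Agent.Y63.NV.B48B (rs)
open Pool.Agent.Y63.AWC (IsIrreducibleCharacter)
open Pool.Agent.Y63.KR (chainStabilizer)
open Pool.Agent.Q90.WR (Wr WrN instGroupWrN)
open Pool.Agent.Q99.AS (altSum IsCh chSetoid)
open Pool.Agent.Q149.DB (HasDef RealBlock PosDef nb PD PD_bar rl tot sgn DB RB bl nz Dz Rz sqN)

/-- `ϑ` is an irreducible character of the subgroup `H` of `G`, of `p`-defect `d`, with
`bl(ϑ)^G = B`. -/
structure InBlock (p d : ℕ) {F : Type} [Field F] (red : integralClosure ℤ ℂ →+* F) {G : Type}
    [Group G] (B : (G → F) → F) (H : Subgroup G) (ϑ : H → ℂ) : Prop where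
  irr : IsIrreducibleCharacter ϑ
  defect : HasDef p d ϑ
  block : ∀ f : G → F, IsClassFun f → centralValue red ϑ (fun x => f x) = B f

/-- `k^d(B_σ)` for `G_σ = H` -/
noncomputable def numDefBlock (p d : ℕ) {F : Type} [Field F] (red : integralClosure ℤ ℂ →+* F)
    {G : Type} [Group G] (B : (G → F) → F) (H : Subgroup G) : ℕ :=
  Nat.card {ϑ : H → ℂ // InBlock p d red B H ϑ}

/-- the number of the real-valued characters among those counted by `k^d(B_σ)`, `G_σ = H` -/
noncomputable def numRealBlock (p d : ℕ) {F : Type} [Field F] (red : integralClosure ℤ ℂ →+* F)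
    {G : Type} [Group G] (B : (G → F) → F) (H : Subgroup G) : ℕ :=
  Nat.card {ϑ : H → ℂ // InBlock p d red B H ϑ ∧ ∀ g, (ϑ g).im = 0}

/-- `D_d(B)`: the alternating sum `∑_σ (-1)^|σ| k^d(B_σ)` over representatives of the classes of
chains `1 = D_0 < D_1 < ⋯ < D_n` of `p`-subgroups. -/
noncomputable def dadeSum (p d : ℕ) {F : Type} [Field F] (red : integralClosure ℤ ℂ →+* F)
    {G : Type} [Group G] (B : (G → F) → F) : ℤ :=
  altSum p ⊥ (fun H : Subgroup G => (numDefBlock p d red B H : ℤ))

/-- `R_d(B)`: the sum of the numbers of real-valued characters over the same chains, without signs. -/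
noncomputable def realSum (p d : ℕ) {F : Type} [Field F] (red : integralClosure ℤ ℂ →+* F)
    {G : Type} [Group G] (B : (G → F) → F) : ℕ :=
  ∑ᶠ c : Quotient (chSetoid p (⊥ : Subgroup G)),
    numRealBlock p d red B (chainStabilizer c.out.1)

/-- `D_d(B) = 0` for all `d` and all blocks `B` of `G` of positive defect. -/
def Dade (p : ℕ) {F : Type} [Field F] (red : integralClosure ℤ ℂ →+* F) (G : Type) [Group G] :
    Prop :=
  ∀ B : (G → F) → F, IsBlock B → PosDef red p B → ∀ d : ℕ, dadeSum p d red B = 0

/-- `R_d(B)` is even for all `d` and all real blocks `B` of `G` of positive defect. -/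
def RealEven (p : ℕ) {F : Type} [Field F] (red : integralClosure ℤ ℂ →+* F) (G : Type)
    [Group G] : Prop :=
  ∀ B : (G → F) → F, IsBlock B → PosDef red p B → RealBlock B → ∀ d : ℕ,
    Even (realSum p d red B)

/-- `G` has no nontrivial normal `p`-subgroup. -/
def TrivialCore (p : ℕ) (G : Type) [Group G] : Prop :=
  ∀ P : Subgroup G, P.Normal → IsPGroup p P → P = ⊥

/-- the number of the irreducible characters of the subgroup `H` of `G`, of `p`-defect `d`, whose
central characters (modulo `p`) do not vanish at `z` (restricted to `H`) -/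
noncomputable def numDefAt (p d : ℕ) {F : Type} [Field F] (red : integralClosure ℤ ℂ →+* F)
    {G : Type} [Group G] (z : G → F) (H : Subgroup G) : ℕ :=
  Nat.card {ϑ : H → ℂ // IsIrreducibleCharacter ϑ ∧ HasDef p d ϑ ∧
    centralValue red ϑ (fun x => z x) ≠ 0}

/-- the number of the real-valued characters among those counted by `numDefAt` -/
noncomputable def numRealAt (p d : ℕ) {F : Type} [Field F] (red : integralClosure ℤ ℂ →+* F)
    {G : Type} [Group G] (z : G → F) (H : Subgroup G) : ℕ :=
  Nat.card {ϑ : H → ℂ // IsIrreducibleCharacter ϑ ∧ (HasDef p d ϑ ∧ ∀ g, (ϑ g).im = 0) ∧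
    centralValue red ϑ (fun x => z x) ≠ 0}

/-- `D_d(z)`: the alternating sum of `numDefAt` over the classes of chains. -/
noncomputable def dadeSumAt (p d : ℕ) {F : Type} [Field F] (red : integralClosure ℤ ℂ →+* F)
    {G : Type} [Group G] (z : G → F) : ℤ :=
  altSum p ⊥ (fun H : Subgroup G => (numDefAt p d red z H : ℤ))

/-- `R_d(z)`: the sum of `numRealAt` over the classes of chains, without signs. -/
noncomputable def realSumAt (p d : ℕ) {F : Type} [Field F] (red : integralClosure ℤ ℂ →+* F)
    {G : Type} [Group G] (z : G → F) : ℕ :=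
  ∑ᶠ c : Quotient (chSetoid p (⊥ : Subgroup G)),
    numRealAt p d red z (chainStabilizer c.out.1)

section bridge

variable {F : Type} [Field F] (red : integralClosure ℤ ℂ →+* F) {G : Type} [Group G]

theorem bl_iff {B : (G → F) → F} {H : Subgroup G} {ϑ : H → ℂ} : bl red ϑ = rs B ↔
    ∀ f : G → F, IsClassFun f → centralValue red ϑ (fun x => f x) = B f :=
  ⟨fun h f hf => congrFun h ⟨f, hf⟩, fun h => funext fun f => h f.1 f.2⟩

theorem num_eq (p d : ℕ) (B : (G → F) → F) (H : Subgroup G) :
    numDefBlock p d red B H = nb red (PD p d) (rs B) H :=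
  Nat.card_congr (Equiv.subtypeEquivRight fun ϑ =>
    ⟨fun h => ⟨h.irr, h.defect, (bl_iff red).2 h.block⟩,
      fun h => ⟨h.1, h.2.1, (bl_iff red).1 h.2.2⟩⟩)

theorem real_eq (p d : ℕ) (B : (G → F) → F) (H : Subgroup G) :
    numRealBlock p d red B H = nb red (rl (PD p d)) (rs B) H :=
  Nat.card_congr (Equiv.subtypeEquivRight fun ϑ =>
    ⟨fun h => ⟨h.1.irr, ⟨h.1.defect, h.2⟩, (bl_iff red).2 h.1.block⟩,
      fun h => ⟨⟨h.1, h.2.1.1, (bl_iff red).1 h.2.2⟩, h.2.1.2⟩⟩)

theorem dade_eq (p d : ℕ) (B : (G → F) → F) : dadeSum p d red B = DB red p d B := by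
  unfold dadeSum DB
  have h : numDefBlock p d red B = nb red (PD p d) (rs B) := funext fun H => num_eq red p d B H
  rw [h]
  rfl

theorem realSum_eq (p d : ℕ) [Finite G] (B : (G → F) → F) :
    (realSum p d red B : ℤ) = RB red p d B := by
  have : Fintype (Quotient (chSetoid p (⊥ : Subgroup G))) := Fintype.ofFinite _
  unfold realSum RB tot
  rw [finsum_eq_sum_of_fintype, finsum_eq_sum_of_fintype, Nat.cast_sum]
  exact Finset.sum_congr rfl fun c _ => by rw [real_eq, one_mul]

theorem even_iff (p d : ℕ) [Finite G] (B : (G → F) → F) :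
    Even (realSum p d red B) ↔ (2 : ℤ) ∣ RB red p d B := by
  rw [← realSum_eq red p d B, even_iff_two_dvd]
  exact_mod_cast Iff.rfl

theorem realSumAt_eq (p d : ℕ) [Finite G] (z : G → F) :
    (realSumAt p d red z : ℤ) = Rz red p d z := by
  have : Fintype (Quotient (chSetoid p (⊥ : Subgroup G))) := Fintype.ofFinite _
  unfold realSumAt Rz tot
  rw [finsum_eq_sum_of_fintype, finsum_eq_sum_of_fintype, Nat.cast_sum]
  refine Finset.sum_congr rfl fun c _ => ?_
  rw [one_mul]
  rfl

end bridge

/-- **Dade's conjecture for odd primes: the parities of the real blocks decide.** Let `p` be an odd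
prime.
(1) `D_d(B) = 0` for all `d` and all blocks `B` of positive defect of all finite groups without
nontrivial normal `p`-subgroups if and only if `R_d(B)` is even for all `d` and all real blocks `B` of
positive defect of these groups.
(2) For every class `C` of finite groups closed under `G ↦ G ≀ C₂`: `D_d(B) = 0` for all `d` and all
blocks `B` of positive defect of the groups in `C` if and only if `R_d(B)` is even for all `d` and all
real blocks `B` of positive defect of the groups in `C`.
(3) For one finite group `G`: `D_d(B) = 0` for all `d` and all blocks `B` of positive defect of `G` if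
`R_d(B)` is even for all `d` and all real blocks `B` of positive defect of the iterated wreath
products `WrN j G` of `G` with `C₂`, `2 ^ j ≤ c |G|` with the number `c` of chains of nontrivial
`p`-subgroups of `G`.
(4) For one finite group `G` and one `z` in the centre of `F[G]` invariant under `g ↦ g⁻¹`:
`D_d(z) = 0` for all `d > 0` if and only if `R_d(z_j)` is even for all `d > 0` and all `j`, where
`z_0 = z` and `z_{j+1} = z_j ⊗ z_j`. -/
theorem result (p : ℕ) [Fact p.Prime] (hp2 : p ≠ 2) (F : Type) [Field F] [IsAlgClosed F]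
    [CharP F p] (red : integralClosure ℤ ℂ →+* F) :
    ((∀ (G : Type) [Group G] [Finite G], TrivialCore p G → Dade p red G) ↔
      ∀ (G : Type) [Group G] [Finite G], TrivialCore p G → RealEven p red G) ∧
    (∀ C : (G : Type) → Group G → Prop,
      (∀ (G : Type) [i : Group G] [Finite G], C G i → C (Wr G) inferInstance) →
      ((∀ (G : Type) [i : Group G] [Finite G], C G i → Dade p red G) ↔
        ∀ (G : Type) [i : Group G] [Finite G], C G i → RealEven p red G)) ∧
    (∀ (G : Type) [Group G] [Finite G],
      (∀ j : ℕ, 2 ^ j ≤ Nat.card {σ : Set (Subgroup G) // IsCh p ⊥ σ} * Nat.card G →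
        RealEven p red (WrN j G)) → Dade p red G) ∧
    (∀ (G : Type) [Group G] [Finite G] (z : G → F), IsClassFun z → (∀ g, z g⁻¹ = z g) →
      ((∀ d : ℕ, 0 < d → dadeSumAt p d red z = 0) ↔
        ∀ j d : ℕ, 0 < d → Even (realSumAt p d red (sqN j z)))) := by
  have h1 : ∀ (G : Type) [Group G] [Finite G],
      (∀ j : ℕ, 2 ^ j ≤ Nat.card {σ : Set (Subgroup G) // IsCh p ⊥ σ} * Nat.card G →
        RealEven p red (WrN j G)) → Dade p red G := by
    intro G _ _ h B hB hB' d
    rw [dade_eq]
    exact Pool.Agent.Q149.DB.DB_zero red hp2 G (fun j hj B hB hr hB' d _ =>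
      (even_iff red p d B).1 (h j hj B hB hB' hr d)) B hB hB' d
  have h2 : ∀ C : (G : Type) → Group G → Prop,
      (∀ (G : Type) [i : Group G] [Finite G], C G i → C (Wr G) inferInstance) →
      ((∀ (G : Type) [i : Group G] [Finite G], C G i → Dade p red G) ↔
        ∀ (G : Type) [i : Group G] [Finite G], C G i → RealEven p red G) := by
    intro C hC
    constructor
    · intro h G _ _ hG B hB hB' hr d
      have h3 := Pool.Agent.Q149.DB.DB_mod red hp2 G B hB hr d
      have h4 := h G hG B hB hB' d
      rw [dade_eq] at h4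
      rw [h4] at h3
      rw [even_iff]
      exact (Int.modEq_zero_iff_dvd).1 h3.symm
    · intro h G _ _ hG
      exact h1 G fun j _ => h (WrN j G) (Pool.Agent.Q149.WB.closed_WrN C hC j G hG)
  refine ⟨?_, h2, h1, ?_⟩
  swap
  · intro G _ _ z hz hr
    have h4 := Pool.Agent.Q149.DB.Z_iff red (p := p) hp2 hz (funext hr)
    constructor
    · intro h j d hd
      have h5 := h4.1 (fun d hd => h d hd) j d hd
      rw [← realSumAt_eq] at h5
      rw [even_iff_two_dvd]
      exact_mod_cast h5
    · intro h d hd
      refine h4.2 (fun j d hd => ?_) d hd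
      have h5 := h j d hd
      rw [even_iff_two_dvd] at h5
      rw [← realSumAt_eq]
      exact_mod_cast h5
  have h3 := h2 (fun G i => Finite G ∧ @TrivialCore p G i) (fun G _ _ hG =>
    ⟨inferInstance, Pool.Agent.Q90.WR.Op_wr hp2 hG.2⟩)
  constructor
  · intro h G _ _ hG
    exact h3.1 (fun G _ _ hG => h G hG.2) G ⟨inferInstance, hG⟩
  · intro h G _ _ hG
    exact h3.2 (fun G _ _ hG => h G hG.2) G ⟨inferInstance, hG⟩

end Pool.Agent.Results.MP_3f89b9_al.RealBlocksDecide
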